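import Pool.Agent.H2.LfB

set_option autoImplicit false

namespace Pool.Agent.Results.MP_e86906_an.Spec

open Pool.Agent.H2.Lf

/-- Spectrum of a compact Lipschitz operator on the free space over any complete pointed metric
space. -/
theorem result (M : Type) [MetricSpace M] [CompleteSpace M] (o : M) (f : M → M) (L : NNReal)
    (hf : LipschitzWith L f) (h0 : f o = o) (T : Free o →L[ℂ] Free o)
    (hT : ∀ x, T (dF o x) = dF o (f x)) (hc : IsCompactOperator T) (A : Set ℕ)
    (hA : A = {n | 1 ≤ n ∧ ∃ x, x ≠ o ∧ f^[n] x = x ∧ ∀ k, 1 ≤ k → k < n → f^[k] x ≠ x}) :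
    A.Finite ∧
      {z : ℂ | ¬ Function.Bijective (T - z • ContinuousLinearMap.id ℂ (Free o))} \ {0} =
        ⋃ n ∈ A, {z : ℂ | z ^ n = 1} := by
  have := complete o
  have hP := fin_per f L L.2 hf.dist_le_mul h0 T hT hc
  subst hA
  refine ⟨(hP.image (Function.minimalPeriod f)).subset ?_, Set.ext fun z => ⟨?_, ?_⟩⟩
  · rintro n ⟨hn, x, -, h1, h2⟩
    have hx : x ∈ Function.periodicPts f := ⟨n, hn, h1⟩
    refine ⟨x, hx, le_antisymm (Function.IsPeriodicPt.minimalPeriod_le hn h1) ?_⟩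
    by_contra h
    exact h2 _ (Function.minimalPeriod_pos_of_mem_periodicPts hx) (not_le.mp h)
      Function.iterate_minimalPeriod
  · rintro ⟨h1, h2⟩
    rcases hc.hasEigenvalue_or_mem_resolventSet h2 with h | h
    · obtain ⟨γ, hγ⟩ := h.exists_hasEigenvector
      obtain ⟨p, hp, hpo, h3⟩ := eig f L L.2 hf.dist_le_mul h0 T hT hc z h2 γ hγ.2
        hγ.apply_eq_smul
      refine Set.mem_iUnion₂.mpr ⟨_, ⟨Function.minimalPeriod_pos_of_mem_periodicPts hp, p, hpo,
        Function.iterate_minimalPeriod, fun k hk hk2 h4 => ?_⟩, h3⟩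
      exact absurd (Function.IsPeriodicPt.minimalPeriod_le hk h4) (not_le.mpr hk2)
    · refine absurd (ContinuousLinearMap.isUnit_iff_bijective.mp ?_) h1
      have h3 := (spectrum.mem_resolventSet_iff.mp h).neg
      rwa [neg_sub, Algebra.algebraMap_eq_smul_one] at h3
  · intro h
    obtain ⟨n, ⟨hn, p, hp, h1, h2⟩, hz⟩ := Set.mem_iUnion₂.mp h
    obtain ⟨γ, h3, h4⟩ := eigvec f h0 T hT hP p hp n hn h1 h2 z hz
    refine ⟨fun hb => h3 (hb.1 ?_), fun h5 => ?_⟩
    · simp [h4]
    · rw [Set.mem_singleton_iff.mp h5, Set.mem_setOf_eq, zero_pow (by omega)] at hz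
      exact zero_ne_one hz

end Pool.Agent.Results.MP_e86906_an.Spec
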